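import Mathlib

namespace Pool.Agent.H.MP_44d715_an
open Set Filter Topology MeasureTheory Real

noncomputable def lam (n : ℕ) : ℝ := (((n + 1 : ℕ) : ℝ) * π) ^ 2
noncomputable def bb (n : ℕ) : ℝ := √2 * (((n + 1 : ℕ) : ℝ) * π) * (-1) ^ (n + 1 + 1)
noncomputable def conv (n : ℕ) (t : ℝ) (v : ℝ → ℝ) : ℝ :=
  ∫ s in (0 : ℝ)..t, exp (-lam n * (t - s)) * v s
noncomputable def WW (t : ℝ) (v : ℝ → ℝ) : ℝ := ∫ s in (0 : ℝ)..t, exp (8 * s) * v s ^ 8
def Good (v : ℝ → ℝ) : Prop := Measurable v ∧ ∃ r, ∀ s, |v s| ≤ r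

theorem lam_ge (n : ℕ) : ((n + 1 : ℕ) : ℝ) ^ 2 + 1 ≤ lam n := by
  have h1 : (1 : ℝ) ≤ ((n + 1 : ℕ) : ℝ) := by push_cast; linarith [Nat.cast_nonneg (α := ℝ) n]
  have h2 := pi_gt_three
  unfold lam
  have : 9 ≤ π ^ 2 := by nlinarith
  have h3 : 1 ≤ ((n + 1 : ℕ) : ℝ) ^ 2 := by nlinarith
  nlinarith

theorem bb_le (n : ℕ) : |bb n| ≤ 8 * ((n + 1 : ℕ) : ℝ) := by
  have h2 := pi_lt_four
  have h3 : √2 ≤ 2 := by rw [Real.sqrt_le_left (by norm_num)]; norm_num
  have h4 : (0 : ℝ) ≤ ((n + 1 : ℕ) : ℝ) := Nat.cast_nonneg _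
  unfold bb
  rw [abs_mul, abs_pow, abs_neg, abs_one, one_pow, mul_one, abs_of_nonneg (by positivity)]
  have : ((n + 1 : ℕ) : ℝ) * π ≤ ((n + 1 : ℕ) : ℝ) * 4 := by gcongr
  have h5 : √2 * (((n + 1 : ℕ) : ℝ) * π) ≤ 2 * (((n + 1 : ℕ) : ℝ) * 4) := by gcongr
  linarith

theorem Good.ii {v : ℝ → ℝ} (hv : Good v) (a b : ℝ) : IntervalIntegrable v volume a b := by
  obtain ⟨r, hr⟩ := hv.2
  exact (intervalIntegrable_const (c := r)).mono_fun' hv.1.aestronglyMeasurable
    (Eventually.of_forall hr)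

theorem Good.pow {v : ℝ → ℝ} (hv : Good v) (k : ℕ) : Good fun s => v s ^ k := by
  obtain ⟨r, hr⟩ := hv.2
  exact ⟨hv.1.pow_const k, r ^ k, fun s => by
    rw [abs_pow]; exact pow_le_pow_left₀ (abs_nonneg _) (hr s) k⟩

theorem Good.mul {v : ℝ → ℝ} (hv : Good v) {g : ℝ → ℝ} (hg : Continuous g) (a b : ℝ) :
    IntervalIntegrable (fun s => g s * v s) volume a b :=
  (hv.ii a b).continuousOn_mul hg.continuousOn

theorem good_zero : Good fun _ => 0 := ⟨measurable_const, 0, by simp⟩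

theorem WW_nonneg {t : ℝ} (ht : 0 ≤ t) (v : ℝ → ℝ) : 0 ≤ WW t v :=
  intervalIntegral.integral_nonneg ht fun s _ => by positivity

theorem young {a η : ℝ} (ha : 0 ≤ a) (hη : 0 < η) : a ≤ η + a ^ 8 / η ^ 7 := by
  rcases le_or_gt a η with h | h
  · have : 0 ≤ a ^ 8 / η ^ 7 := by positivity
    linarith
  · have : a ≤ a ^ 8 / η ^ 7 := by
      rw [le_div_iff₀ (by positivity)]
      have : η ^ 7 ≤ a ^ 7 := pow_le_pow_left₀ hη.le h.le 7
      calc a * η ^ 7 ≤ a * a ^ 7 := by gcongr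
        _ = a ^ 8 := by ring
    linarith

theorem int_exp_le {c t : ℝ} (hc : 0 < c) :
    ∫ s in (0 : ℝ)..t, exp (-c * (t - s)) ≤ 1 / c := by
  have h : ∀ s ∈ uIcc (0 : ℝ) t,
      HasDerivAt (fun s => exp (-c * (t - s)) / c) (exp (-c * (t - s))) s := by
    intro s _
    have := ((((hasDerivAt_id s).const_sub t).const_mul (-c)).exp).div_const c
    refine this.congr_deriv ?_
    simp only [id]; field_simp
  rw [intervalIntegral.integral_eq_sub_of_hasDerivAt h
    (Continuous.intervalIntegrable (by fun_prop) _ _)]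
  have : 0 ≤ exp (-c * (t - 0)) / c := by positivity
  simp only [sub_self, mul_zero, exp_zero]; linarith

theorem conv_le (n : ℕ) {t : ℝ} (ht : 0 ≤ t) {v : ℝ → ℝ} (hv : Good v) {η : ℝ} (hη : 0 < η) :
    exp t * |conv n t v| ≤ η / ((n + 1 : ℕ) : ℝ) ^ 2 + WW t v / η ^ 7 := by
  set c : ℝ := ((n + 1 : ℕ) : ℝ) ^ 2 with hc
  have hc0 : 0 < c := by positivity
  have hl := lam_ge n
  have i1 : IntervalIntegrable (fun s => η * exp (-c * (t - s))) volume 0 t :=
    Continuous.intervalIntegrable (by fun_prop) _ _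
  have i2 : IntervalIntegrable (fun s => exp (8 * s) * v s ^ 8 / η ^ 7) volume 0 t :=
    ((hv.pow 8).mul (g := fun s => exp (8 * s)) (by fun_prop) 0 t).div_const _
  have h1 : exp t * |conv n t v| = ‖∫ s in (0 : ℝ)..t, exp t * (exp (-lam n * (t - s)) * v s)‖ := by
    rw [intervalIntegral.integral_const_mul, norm_mul, Real.norm_eq_abs, abs_of_pos (exp_pos t)]
    rfl
  rw [h1]
  refine (intervalIntegral.norm_integral_le_of_norm_le ht ?_ (i1.add i2)).trans ?_
  · refine Eventually.of_forall fun s hs => ?_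
    have e1 : ‖exp t * (exp (-lam n * (t - s)) * v s)‖ =
        exp (-(lam n - 1) * (t - s)) * (exp s * |v s|) := by
      rw [norm_mul, norm_mul, Real.norm_eq_abs, Real.norm_eq_abs, Real.norm_eq_abs,
        abs_of_pos (exp_pos _), abs_of_pos (exp_pos _), ← mul_assoc, ← mul_assoc, ← exp_add,
        ← exp_add]
      congr 2; ring
    have hs2 : 0 ≤ t - s := by linarith [hs.2]
    have e2 : exp (-(lam n - 1) * (t - s)) ≤ exp (-c * (t - s)) := by
      apply exp_le_exp.2; nlinarith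
    have e3 : exp (-c * (t - s)) ≤ 1 := by
      apply exp_le_one_iff.2; nlinarith
    have e4 := young (a := exp s * |v s|) (by positivity) hη
    have e5 : (exp s * |v s|) ^ 8 = exp (8 * s) * v s ^ 8 := by
      rw [mul_pow, Even.pow_abs (by decide), ← exp_nat_mul]; norm_num
    rw [e5] at e4
    rw [e1]
    have e6 : 0 ≤ exp (8 * s) * v s ^ 8 / η ^ 7 := by positivity
    calc _ ≤ exp (-c * (t - s)) * (η + exp (8 * s) * v s ^ 8 / η ^ 7) := by gcongr
      _ ≤ _ := by nlinarith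
  · rw [intervalIntegral.integral_add i1 i2, intervalIntegral.integral_const_mul,
      intervalIntegral.integral_div]
    have := int_exp_le (t := t) hc0
    have h2 : η * ∫ s in (0 : ℝ)..t, exp (-c * (t - s)) ≤ η * (1 / c) := by gcongr
    unfold WW
    rw [mul_one_div] at h2
    linarith

noncomputable def gg (n : ℕ) : ℝ := 1 / ((n + 1 : ℕ) : ℝ) ^ (3 / 2 : ℝ)

theorem gg_sum : Summable gg :=
  (summable_nat_add_iff 1).2 (summable_one_div_nat_rpow.2 (by norm_num : (1 : ℝ) < 3 / 2))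

theorem coef_le (n : ℕ) {t : ℝ} (ht : 0 ≤ t) {v : ℝ → ℝ} (hv : Good v) {ρ : ℝ} (hρ : 0 < ρ)
    (hW : WW t v ≤ ρ ^ 8) : (exp t * (bb n * conv n t v)) ^ 2 ≤ 256 * ρ ^ 2 * gg n := by
  have hN : (0 : ℝ) < ((n + 1 : ℕ) : ℝ) := by positivity
  set m : ℝ := ((n + 1 : ℕ) : ℝ) ^ (1 / 4 : ℝ) with hm
  have hm0 : 0 < m := by positivity
  have m4 : m ^ 4 = ((n + 1 : ℕ) : ℝ) := by
    rw [hm, ← rpow_natCast, ← rpow_mul hN.le]; norm_num
  have m6 : m ^ 6 = ((n + 1 : ℕ) : ℝ) ^ (3 / 2 : ℝ) := by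
    rw [hm, ← rpow_natCast, ← rpow_mul hN.le]; norm_num
  have h1 := conv_le n ht hv (η := ρ * m) (by positivity)
  have h2 : WW t v / (ρ * m) ^ 7 ≤ ρ ^ 8 / (ρ * m) ^ 7 := by gcongr
  have h3 : ρ * m / ((n + 1 : ℕ) : ℝ) ^ 2 + ρ ^ 8 / (ρ * m) ^ 7 = 2 * ρ / m ^ 7 := by
    rw [← m4]; field_simp; ring
  have h4 := bb_le n
  have h5 : |exp t * (bb n * conv n t v)| ≤ 16 * ρ / m ^ 3 := by
    rw [abs_mul, abs_mul, abs_of_pos (exp_pos t)]
    calc exp t * (|bb n| * |conv n t v|) = |bb n| * (exp t * |conv n t v|) := by ring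
      _ ≤ (8 * m ^ 4) * (2 * ρ / m ^ 7) := by
        rw [m4]; apply mul_le_mul h4 (by linarith) (by positivity) (by positivity)
      _ = _ := by field_simp; ring
  rw [← sq_abs]
  calc _ ≤ (16 * ρ / m ^ 3) ^ 2 := by gcongr
    _ = _ := by unfold gg; rw [← m6]; field_simp; ring

theorem exists_rho {W : ℝ} (hW : 0 < W) : ∃ ρ > 0, ρ ^ 8 = W :=
  ⟨W ^ (1 / 8 : ℝ), by positivity, by rw [← rpow_natCast, ← rpow_mul hW.le]; norm_num⟩

theorem conv_cat (n : ℕ) {t h : ℝ} (ht : 0 ≤ t) (hh : 0 ≤ h) {u v : ℝ → ℝ} (hu : Good u)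
    (hv : Good v) (hw : Good fun s => if s ≤ h then u s else v (s - h)) :
    conv n (t + h) (fun s => if s ≤ h then u s else v (s - h)) =
      exp (-lam n * t) * conv n h u + conv n t v := by
  unfold conv
  rw [← intervalIntegral.integral_add_adjacent_intervals (b := h)
    (hw.mul (by fun_prop) _ _) (hw.mul (by fun_prop) _ _)]
  congr 1
  · rw [← intervalIntegral.integral_const_mul]
    apply intervalIntegral.integral_congr_ae
    refine Eventually.of_forall fun s hs => ?_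
    rw [uIoc_of_le hh] at hs
    rw [if_pos hs.2, ← mul_assoc, ← exp_add]
    congr 2; ring
  · have := intervalIntegral.integral_comp_sub_right (a := h) (b := t + h)
      (fun s => exp (-lam n * (t - s)) * v s) h
    rw [sub_self, add_sub_cancel_right] at this
    rw [← this]
    apply intervalIntegral.integral_congr_ae
    refine Eventually.of_forall fun s hs => ?_
    rw [uIoc_of_le (by linarith)] at hs
    rw [if_neg (not_le.2 hs.1)]
    congr 3; ring

theorem WW_cat {t h : ℝ} (ht : 0 ≤ t) (hh : 0 ≤ h) {u v : ℝ → ℝ}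
    (hw : Good fun s => if s ≤ h then u s else v (s - h)) :
    WW (t + h) (fun s => if s ≤ h then u s else v (s - h)) = WW h u + exp (8 * h) * WW t v := by
  unfold WW
  rw [← intervalIntegral.integral_add_adjacent_intervals (b := h)
    ((hw.pow 8).mul (by fun_prop) _ _) ((hw.pow 8).mul (by fun_prop) _ _)]
  congr 1
  · apply intervalIntegral.integral_congr_ae
    refine Eventually.of_forall fun s hs => ?_
    rw [uIoc_of_le hh] at hs
    simp only [if_pos hs.2]
  · have := intervalIntegral.integral_comp_sub_right (a := h) (b := t + h)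
      (fun s => exp (8 * h) * (exp (8 * s) * v s ^ 8)) h
    rw [sub_self, add_sub_cancel_right] at this
    rw [← intervalIntegral.integral_const_mul, ← this]
    apply intervalIntegral.integral_congr_ae
    refine Eventually.of_forall fun s hs => ?_
    rw [uIoc_of_le (by linarith)] at hs
    simp only [if_neg (not_le.2 hs.1)]
    rw [← mul_assoc, ← exp_add]
    congr 2; ring

theorem good_cat {u v : ℝ → ℝ} (hu : Good u) (hv : Good v) (h : ℝ) :
    Good fun s => if s ≤ h then u s else v (s - h) := by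
  obtain ⟨r, hr⟩ := hu.2
  obtain ⟨r', hr'⟩ := hv.2
  refine ⟨Measurable.ite measurableSet_Iic hu.1 (hv.1.comp (by fun_prop)), max r r', fun s => ?_⟩
  beta_reduce
  split_ifs
  · exact (hr _).trans (le_max_left _ _)
  · exact (hr' _).trans (le_max_right _ _)

section
variable {H : Type*} [NormedAddCommGroup H] [InnerProductSpace ℝ H] (b : HilbertBasis ℕ ℝ H)

theorem hs_sq (z : H) : HasSum (fun n => (b.repr z n) ^ 2) (‖z‖ ^ 2) := by
  have := b.hasSum_inner_mul_inner z z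
  rw [real_inner_self_eq_norm_sq] at this
  refine this.congr_fun ?_
  intro n
  rw [b.repr_apply_apply, real_inner_comm, sq]

theorem exists_of_sum {c : ℕ → ℝ} (hc : Summable fun n => c n ^ 2) : ∃ z : H, ∀ n, b.repr z n = c n := by
  have : Memℓp c 2 := memℓp_gen (by simpa using hc)
  exact ⟨b.repr.symm ⟨c, this⟩, fun n => by simp⟩

def Sol (t : ℝ) (x : H) (v : ℝ → ℝ) (z : H) : Prop :=
  ∀ n, b.repr z n = exp (-lam n * t) * b.repr x n + bb n * conv n t v

theorem sq_free (n : ℕ) {t : ℝ} (ht : 0 ≤ t) (a : ℝ) :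
    (exp t * (exp (-lam n * t) * a)) ^ 2 ≤ a ^ 2 := by
  have h := lam_ge n
  have h1 : exp t * exp (-lam n * t) ≤ 1 := by
    rw [← exp_add]; apply exp_le_one_iff.2; nlinarith [sq_nonneg ((n + 1 : ℕ) : ℝ)]
  rw [← mul_assoc, mul_pow]
  have h2 : (exp t * exp (-lam n * t)) ^ 2 ≤ 1 := pow_le_one₀ (by positivity) h1
  nlinarith [sq_nonneg a]

theorem split {t : ℝ} (ht : 0 ≤ t) (x : H) {v : ℝ → ℝ} (hv : Good v) :
    ∃ z0 z1 : H, (∀ n, b.repr z0 n = exp (-lam n * t) * b.repr x n) ∧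
      (∀ n, b.repr z1 n = bb n * conv n t v) ∧ exp t * ‖z0‖ ≤ ‖x‖ ∧
      (exp t * ‖z1‖) ^ 8 ≤ (256 * ∑' n, gg n) ^ 4 * WW t v := by
  have he : 1 ≤ exp t ^ 2 := one_le_pow₀ (one_le_exp ht)
  obtain ⟨z0, h0⟩ := exists_of_sum b (c := fun n => exp (-lam n * t) * b.repr x n) (by
    refine Summable.of_nonneg_of_le (fun n => sq_nonneg _) (fun n => ?_) (hs_sq b x).summable
    have := sq_free n ht (b.repr x n)
    rw [mul_pow] at this
    nlinarith [sq_nonneg (exp (-lam n * t) * b.repr x n)])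
  have hW := WW_nonneg ht v
  obtain ⟨z1, h1⟩ := exists_of_sum b (c := fun n => bb n * conv n t v) (by
    obtain ⟨ρ, hρ, e⟩ := exists_rho (W := WW t v + 1) (by linarith)
    refine Summable.of_nonneg_of_le (fun n => sq_nonneg _) (fun n => ?_)
      (gg_sum.mul_left (256 * ρ ^ 2))
    have := coef_le n ht hv hρ (by linarith)
    rw [mul_pow] at this
    nlinarith [sq_nonneg (bb n * conv n t v)])
  refine ⟨z0, z1, h0, h1, ?_, ?_⟩
  · have := hasSum_le (fun n => ?_) ((hs_sq b z0).mul_left (exp t ^ 2)) (hs_sq b x)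
    · rw [← mul_pow] at this
      exact (pow_le_pow_iff_left₀ (by positivity) (norm_nonneg _) two_ne_zero).1 this
    · rw [← mul_pow, h0]; exact sq_free n ht _
  · have hA : 0 ≤ ∑' n, gg n := tsum_nonneg fun n => by unfold gg; positivity
    have key : ∀ ε > 0, (exp t * ‖z1‖) ^ 8 ≤ (256 * ∑' n, gg n) ^ 4 * (WW t v + ε) := by
      intro ε hε
      obtain ⟨ρ, hρ, e⟩ := exists_rho (W := WW t v + ε) (by linarith)
      have := hasSum_le (fun n => ?_) ((hs_sq b z1).mul_left (exp t ^ 2))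
        (gg_sum.hasSum.mul_left (256 * ρ ^ 2))
      · rw [← mul_pow] at this
        have h2 := pow_le_pow_left₀ (sq_nonneg _) this 4
        rw [← e]
        calc _ = ((exp t * ‖z1‖) ^ 2) ^ 4 := by ring
          _ ≤ _ := h2
          _ = _ := by ring
      · rw [← mul_pow, h1]; exact coef_le n ht hv hρ (by linarith)
    have hc : Tendsto (fun ε : ℝ => (256 * ∑' n, gg n) ^ 4 * (WW t v + ε)) (𝓝[>] 0)
        (𝓝 ((256 * ∑' n, gg n) ^ 4 * (WW t v + 0))) :=
      Tendsto.mono_left (Continuous.tendsto (by fun_prop) 0) nhdsWithin_le_nhds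
    rw [add_zero] at hc
    exact ge_of_tendsto hc (by filter_upwards [self_mem_nhdsWithin] with ε hε using key ε hε)

theorem ext_repr {z z' : H} (h : ∀ n, b.repr z n = b.repr z' n) : z = z' :=
  b.repr.injective (by ext n; exact h n)

theorem sol_ex {t : ℝ} (ht : 0 ≤ t) (x : H) {v : ℝ → ℝ} (hv : Good v) : ∃ z, Sol b t x v z := by
  obtain ⟨z0, z1, h0, h1, -⟩ := split b ht x hv
  exact ⟨z0 + z1, fun n => by simp [h0, h1]⟩

noncomputable def RR : ℝ := 128 * (256 * ∑' n, gg n) ^ 4 + 1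

theorem RR_pos : 0 < RR := by unfold RR; positivity

def SS (x : H) : Set ℝ :=
  {r | ∃ t, 0 ≤ t ∧ ∃ v, Good v ∧ ∃ z, Sol b t x v z ∧ r = exp (8 * t) * ‖z‖ ^ 8 - RR * WW t v}

theorem SS_le (x : H) : ∀ r ∈ SS b x, r ≤ 128 * ‖x‖ ^ 8 := by
  rintro r ⟨t, ht, v, hv, z, hz, rfl⟩
  obtain ⟨z0, z1, h0, h1, h2, h3⟩ := split b ht x hv
  have e : z = z0 + z1 := ext_repr b fun n => by simp [hz n, h0, h1]
  have h4 : exp t * ‖z‖ ≤ ‖x‖ + exp t * ‖z1‖ := by
    have := norm_add_le z0 z1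
    rw [← e] at this
    nlinarith [exp_pos t]
  have h5 : exp (8 * t) * ‖z‖ ^ 8 = (exp t * ‖z‖) ^ 8 := by
    rw [mul_pow, ← exp_nat_mul]; norm_num
  have h6 := pow_le_pow_left₀ (by positivity) h4 8
  have h7 := add_pow_le (norm_nonneg x) (show 0 ≤ exp t * ‖z1‖ by positivity) 8
  have hW := WW_nonneg ht v
  rw [h5]; unfold RR
  norm_num at h7
  nlinarith

theorem SS_mem (x : H) : ‖x‖ ^ 8 ∈ SS b x :=
  ⟨0, le_rfl, fun _ => 0, good_zero, x, fun n => by simp [conv], by simp [WW]⟩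

theorem SS_bdd (x : H) : BddAbove (SS b x) := ⟨_, SS_le b x⟩

noncomputable def VV (x : H) : ℝ := sSup (SS b x)

theorem VV_ge (x : H) : ‖x‖ ^ 8 ≤ VV b x := le_csSup (SS_bdd b x) (SS_mem b x)
theorem VV_le (x : H) : VV b x ≤ 128 * ‖x‖ ^ 8 := csSup_le ⟨_, SS_mem b x⟩ (SS_le b x)

theorem VV_convex : ConvexOn ℝ univ (VV b) := by
  refine ⟨convex_univ, fun x _ y _ a c ha hc hac => ?_⟩
  apply csSup_le ⟨_, SS_mem b _⟩
  rintro r ⟨t, ht, v, hv, z, hz, rfl⟩
  obtain ⟨z1, h1⟩ := sol_ex b ht x hv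
  obtain ⟨z2, h2⟩ := sol_ex b ht y hv
  have e : z = a • z1 + c • z2 := ext_repr b fun n => by
    have : c = 1 - a := by linarith
    rw [hz n, map_add, map_add, map_smul, map_smul, map_smul, map_smul]
    simp only [lp.coeFn_add, lp.coeFn_smul, Pi.add_apply, Pi.smul_apply, smul_eq_mul]
    rw [h1 n, h2 n, this]; ring
  have cv := ((convexOn_norm (s := (univ : Set H)) convex_univ).pow
    (fun _ _ => norm_nonneg _) 8).2 (mem_univ z1) (mem_univ z2) ha hc hac
  rw [← e] at cv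
  simp only [Pi.pow_apply, smul_eq_mul] at cv
  have a1 : exp (8 * t) * ‖z1‖ ^ 8 - RR * WW t v ≤ VV b x :=
    le_csSup (SS_bdd b x) ⟨t, ht, v, hv, z1, h1, rfl⟩
  have a2 : exp (8 * t) * ‖z2‖ ^ 8 - RR * WW t v ≤ VV b y :=
    le_csSup (SS_bdd b y) ⟨t, ht, v, hv, z2, h2, rfl⟩
  have a3 := mul_le_mul_of_nonneg_left a1 ha
  have a4 := mul_le_mul_of_nonneg_left a2 hc
  have a5 := mul_le_mul_of_nonneg_left cv (exp_pos (8 * t)).le
  have : c = 1 - a := by linarith
  subst this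
  simp only [smul_eq_mul]
  nlinarith

theorem VV_cont : Continuous (VV b) := by
  have h := ((VV_convex b).continuousOn_tfae isOpen_univ univ_nonempty).out 3 1
  rw [← continuousOn_univ]
  apply h.1
  refine ⟨0, mem_univ _, 128, ?_⟩
  rw [eventually_map]
  filter_upwards [Metric.closedBall_mem_nhds (0 : H) one_pos] with x hx
  have h1 : ‖x‖ ≤ 1 := by simpa using hx
  have h2 : ‖x‖ ^ 8 ≤ 1 := pow_le_one₀ (norm_nonneg _) h1
  linarith [VV_le b x]

theorem VV_step {h : ℝ} (hh : 0 ≤ h) {x y : H} {u : ℝ → ℝ} (hu : Good u) (hy : Sol b h x u y) :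
    exp (8 * h) * VV b y ≤ VV b x + RR * WW h u := by
  rw [← le_div_iff₀' (exp_pos _)]
  apply csSup_le ⟨_, SS_mem b _⟩
  rintro r ⟨t, ht, v, hv, z, hz, rfl⟩
  have hw := good_cat hu hv h
  have hs : Sol b (t + h) x (fun s => if s ≤ h then u s else v (s - h)) z := by
    intro n
    rw [hz n, hy n, conv_cat n ht hh hu hv hw, mul_add (-lam n), exp_add]; ring
  have a1 := le_csSup (SS_bdd b x) ⟨t + h, by linarith, _, hw, z, hs, rfl⟩
  rw [WW_cat ht hh hw, mul_add 8, exp_add] at a1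
  rw [le_div_iff₀' (exp_pos _)]
  unfold VV
  nlinarith

theorem VV_dini {x : H} {u : ℝ → ℝ} (hu : Good u) {r : ℝ} (hr : ∀ s, |u s| ≤ r) {y : ℝ → H}
    (hy : ∀ h, 0 ≤ h → Sol b h x u (y h)) :
    limsup (fun h : ℝ => (((VV b (y h) - VV b x) / h : ℝ) : EReal)) (𝓝[>] 0) ≤
      ((-(8 * ‖x‖ ^ 8) + RR * r ^ 8 : ℝ) : EReal) := by
  have hd : HasDerivAt (fun h : ℝ => exp (-8 * h)) (-8) 0 := by
    simpa using ((hasDerivAt_id (0 : ℝ)).const_mul (-8)).exp
  have h1 := hd.tendsto_slope_zero_right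
  have h2 : Tendsto (fun h : ℝ => (h⁻¹ • (exp (-8 * (0 + h)) - exp (-8 * 0))) * VV b x + RR * r ^ 8)
      (𝓝[>] 0) (𝓝 (-8 * VV b x + RR * r ^ 8)) := (h1.mul_const _).add_const _
  have h3 := ((continuous_coe_real_ereal.tendsto _).comp h2).limsup_eq
  refine le_trans (limsup_le_limsup ?_) (h3.le.trans ?_)
  · filter_upwards [self_mem_nhdsWithin] with h hh
    have hh' : 0 < h := hh
    simp only [Function.comp, EReal.coe_le_coe_iff]
    have a1 := VV_step b hh'.le hu (hy h hh'.le)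
    have a2 : WW h u ≤ h * (exp (8 * h) * r ^ 8) := by
      have := intervalIntegral.integral_mono_on (μ := volume) hh'.le
        ((hu.pow 8).mul (g := fun s => exp (8 * s)) (by fun_prop) 0 h)
        (intervalIntegrable_const (c := exp (8 * h) * r ^ 8)) (fun s hs => by
          have b1 : exp (8 * s) ≤ exp (8 * h) := exp_le_exp.2 (by linarith [hs.2])
          have b2 : u s ^ 8 ≤ r ^ 8 := by
            have := pow_le_pow_left₀ (abs_nonneg _) (hr s) 8
            rwa [Even.pow_abs (by decide)] at this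
          exact mul_le_mul b1 b2 (by positivity) (exp_pos _).le)
      rw [intervalIntegral.integral_const, sub_zero, smul_eq_mul] at this
      exact this
    have a3 : exp (-8 * h) * exp (8 * h) = 1 := by rw [← exp_add]; simp
    have a4 := mul_le_mul_of_nonneg_left a2 RR_pos.le
    have a5 : VV b (y h) ≤ exp (-8 * h) * VV b x + h * (RR * r ^ 8) := by
      have b1 := mul_le_mul_of_nonneg_left (a1.trans (add_le_add_right a4 _)) (exp_pos (-8 * h)).le
      rw [← mul_assoc, a3, one_mul] at b1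
      refine b1.trans (le_of_eq ?_)
      linear_combination (RR * h * r ^ 8) * a3
    rw [div_le_iff₀ hh']
    simp only [zero_add, mul_zero, exp_zero, smul_eq_mul]
    have : (h⁻¹ * (exp (-8 * h) - 1) * VV b x + RR * r ^ 8) * h =
        (exp (-8 * h) - 1) * VV b x + h * (RR * r ^ 8) := by field_simp
    rw [this]; linarith
  · rw [EReal.coe_le_coe_iff]
    linarith [VV_ge b x]

end
end Pool.Agent.H.MP_44d715_an
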