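import Mathlib

namespace Pool.Agent.H.MP_44d715_an
open Set Filter Topology MeasureTheory Real

/-- The state space `L²(0,1)`. -/
abbrev X : Type := Lp ℝ 2 (volume.restrict (Ioo (0 : ℝ) 1))

/-- The input space `L^∞(0,∞)`. -/
abbrev U : Type := Lp ℝ ⊤ (volume.restrict (Ioi (0 : ℝ)))

/-- Coefficient with respect to the eigenfunction `√2 sin (k π z)`. -/
noncomputable def coef (x : X) (k : ℕ) : ℝ := ∫ z in Ioo (0 : ℝ) 1, √2 * sin (k * π * z) * x z

/-- The mild solution, written in the eigenbasis of the Dirichlet Laplacian. -/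
def IsMild (x : X) (u : U) (y : ℝ → X) : Prop :=
  ∀ t, 0 ≤ t → ∀ k : ℕ, 1 ≤ k → coef (y t) k = exp (-(k * π) ^ 2 * t) * coef x k +
    √2 * (k * π) * (-1) ^ (k + 1) * ∫ s in (0 : ℝ)..t, exp (-(k * π) ^ 2 * (t - s)) * u s

def ClassK (g : ℝ → ℝ) : Prop :=
  ContinuousOn g (Ici 0) ∧ StrictMonoOn g (Ici 0) ∧ g 0 = 0

def ClassKinf (g : ℝ → ℝ) : Prop := ClassK g ∧ Tendsto g atTop atTop

end Pool.Agent.H.MP_44d715_an
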