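import Pool.Agent.H.MP_44d715_an.A
import Pool.Agent.H.MP_44d715_an.D

namespace Pool.Agent.H.MP_44d715_an
open Set Filter Topology MeasureTheory Real

theorem sn_mem (k : ℕ) :
    MemLp (fun z : ℝ => √2 * sin (k * π * z)) 2 (volume.restrict (Ioo (0 : ℝ) 1)) := by
  apply MemLp.of_bound (Continuous.aestronglyMeasurable (by fun_prop)) (√2)
  refine Eventually.of_forall fun z => ?_
  rw [norm_mul, Real.norm_eq_abs, Real.norm_eq_abs, abs_of_nonneg (sqrt_nonneg _)]
  exact mul_le_of_le_one_right (sqrt_nonneg _) (abs_sin_le_one _)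

noncomputable def ee (n : ℕ) : X := (sn_mem (n + 1)).toLp _

theorem inner_ee (n : ℕ) (x : X) : inner ℝ (ee n) x = coef x (n + 1) := by
  rw [L2.inner_def]
  apply integral_congr_ae
  filter_upwards [(sn_mem (n + 1)).coeFn_toLp] with z hz
  unfold ee
  rw [hz]; simp [mul_comm]

theorem int_cos (k : ℤ) : ∫ z in (0 : ℝ)..1, cos (k * π * z) = if k = 0 then 1 else 0 := by
  split_ifs with h
  · simp [h]
  · have hk : (k : ℝ) * π ≠ 0 := mul_ne_zero (by exact_mod_cast h) pi_ne_zero
    rw [intervalIntegral.integral_comp_mul_left (fun z => cos z) hk]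
    simp

theorem ee_on : Orthonormal ℝ ee := by
  rw [orthonormal_iff_ite]
  intro i j
  rw [inner_ee]
  have h1 : coef (ee j) (i + 1) = ∫ z in (0 : ℝ)..1,
      (cos (((i : ℤ) - j : ℤ) * π * z) - cos (((i : ℤ) + j + 2 : ℤ) * π * z)) := by
    rw [intervalIntegral.integral_of_le zero_le_one, integral_Ioc_eq_integral_Ioo]
    apply integral_congr_ae
    filter_upwards [(sn_mem (j + 1)).coeFn_toLp] with z hz
    unfold ee
    rw [hz]
    have e1 : (((i : ℤ) - j : ℤ) : ℝ) * π * z =
        ((i + 1 : ℕ) : ℝ) * π * z - ((j + 1 : ℕ) : ℝ) * π * z := by push_cast; ring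
    have e2 : (((i : ℤ) + j + 2 : ℤ) : ℝ) * π * z =
        ((i + 1 : ℕ) : ℝ) * π * z + ((j + 1 : ℕ) : ℝ) * π * z := by push_cast; ring
    rw [e1, e2, cos_sub, cos_add]
    have := Real.mul_self_sqrt (show (0 : ℝ) ≤ 2 by norm_num)
    linear_combination (sin (((i + 1 : ℕ) : ℝ) * π * z) * sin (((j + 1 : ℕ) : ℝ) * π * z)) * this
  rw [h1, intervalIntegral.integral_sub (Continuous.intervalIntegrable (by fun_prop) _ _)
    (Continuous.intervalIntegrable (by fun_prop) _ _), int_cos, int_cos,
    if_neg (show ¬ ((i : ℤ) + j + 2 = 0) by omega), sub_zero]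
  congr 1
  simp only [eq_iff_iff]; omega

theorem complete (x : X) (h : ∀ n, coef x (n + 1) = 0) : x = 0 := by
  have hs : ∀ k : ℤ, ∫ z in Ioo (0 : ℝ) 1, sin (k * π * z) * x z = 0 := by
    have h1 : ∀ k : ℕ, ∫ z in Ioo (0 : ℝ) 1, sin (k * π * z) * x z = 0 := by
      intro k
      rcases k with _ | k
      · simp
      · have := h k
        unfold coef at this
        simp only [mul_assoc (√2)] at this
        rw [integral_const_mul] at this
        exact (mul_eq_zero.1 this).resolve_left (by positivity)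
    intro k
    obtain ⟨m, rfl | rfl⟩ := Int.eq_nat_or_neg k
    · simpa using h1 m
    · have := h1 m
      simp only [Int.cast_neg, Int.cast_natCast, neg_mul, sin_neg]
      rw [integral_neg, this, neg_zero]
  let g : ℝ → ℝ := indicator (Ioo 0 1) x
  have hg : MemLp g 2 volume := (memLp_indicator_iff_restrict measurableSet_Ioo).2 (Lp.memLp x)
  have hg' : MemLp (fun z => g (-z)) 2 volume :=
    hg.comp_measurePreserving (Measure.measurePreserving_neg volume)
  have ii : ∀ {f : ℝ → ℝ}, MemLp f 2 volume → IntervalIntegrable (fun z => (f z : ℂ)) volume (-1) 1 := by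
    intro f hf
    rw [intervalIntegrable_iff_integrableOn_Ioc_of_le (by norm_num)]
    exact ((hf.restrict (Ioc (-1) 1)).integrable (by norm_num)).ofReal
  let F : ℝ → ℂ := fun z => ((g z - g (-z) : ℝ) : ℂ)
  have hF : MemLp F 2 (volume.restrict (Ioc (-1 : ℝ) 1)) := ((hg.sub hg').restrict _).ofReal
  have hc : ∀ n : ℤ, fourierCoeffOn (show (-1 : ℝ) < 1 by norm_num) F n = 0 := by
    intro n
    rw [fourierCoeffOn_eq_integral]
    let φ : ℝ → ℂ := fun z => Complex.exp (-(n * π * z : ℝ) * Complex.I)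
    have hφ : Continuous φ := by unfold φ; fun_prop
    have e1 : ∀ z : ℝ, fourier (-n) (z : AddCircle ((1 : ℝ) - -1)) • F z =
        φ z * g z - φ z * g (-z) := by
      intro z
      rw [fourier_coe_apply, smul_eq_mul, ← mul_sub]
      simp only [φ, F]
      push_cast
      congr 2; ring
    simp only [e1]
    have i1 := (ii hg).continuousOn_mul hφ.continuousOn
    have i2 := (ii hg').continuousOn_mul hφ.continuousOn
    have i3 := (ii hg).continuousOn_mul (g := fun z => φ (-z)) (by fun_prop)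
    rw [intervalIntegral.integral_sub i1 i2]
    have e2 : ∫ z in (-1 : ℝ)..1, φ z * g (-z) = ∫ z in (-1 : ℝ)..1, φ (-z) * g z := by
      have := intervalIntegral.integral_comp_neg (a := (-1 : ℝ)) (b := 1) (fun z => φ (-z) * g z)
      simpa using this
    rw [e2, ← intervalIntegral.integral_sub i1 i3]
    have e3 : ∀ z : ℝ, φ z * g z - φ (-z) * g z =
        (-2 * Complex.I) * ((indicator (Ioo 0 1) (fun z => sin (n * π * z) * x z) z : ℝ) : ℂ) := by
      intro z
      have : indicator (Ioo 0 1) (fun z => sin (n * π * z) * x z) z = sin (n * π * z) * g z := by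
        by_cases hz : z ∈ Ioo (0 : ℝ) 1 <;> simp [g, hz]
      rw [this, ← sub_mul]
      simp only [φ, Complex.exp_mul_I]
      push_cast
      simp only [mul_neg, neg_neg, Complex.cos_neg, Complex.sin_neg]
      ring
    simp only [e3]
    rw [intervalIntegral.integral_const_mul, intervalIntegral.integral_ofReal,
      intervalIntegral.integral_of_le (by norm_num), setIntegral_indicator measurableSet_Ioo,
      inter_eq_self_of_subset_right (show Ioo (0 : ℝ) 1 ⊆ Ioc (-1) 1 from
        fun z hz => ⟨by linarith [hz.1], hz.2.le⟩), hs n]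
    simp
  have h2 := tsum_sq_fourierCoeffOn (show (-1 : ℝ) < 1 by norm_num) hF
  simp only [hc] at h2
  have h3 : ∫ z in Ioc (-1 : ℝ) 1, ‖F z‖ ^ 2 = 0 := by
    rw [← intervalIntegral.integral_of_le (by norm_num)]
    norm_num at h2
    exact h2
  rw [integral_eq_zero_iff_of_nonneg (fun z => by positivity)
    ((memLp_two_iff_integrable_sq_norm hF.1).1 hF)] at h3
  have h4 := ae_restrict_of_ae_restrict_of_subset
    (show Ioo (0 : ℝ) 1 ⊆ Ioc (-1) 1 from fun z hz => ⟨by linarith [hz.1], hz.2.le⟩) h3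
  apply Lp.ext
  filter_upwards [h4, ae_restrict_mem measurableSet_Ioo, Lp.coeFn_zero ℝ 2 _] with z h5 h6 h7
  rw [h7]
  have h8 : -z ∉ Ioo (0 : ℝ) 1 := fun h => by linarith [h.1, h6.1]
  simpa [F, g, h6, indicator_of_notMem h8] using h5

noncomputable def bas : HilbertBasis ℕ ℝ X :=
  HilbertBasis.mkOfOrthogonalEqBot ee_on (by
    rw [Submodule.eq_bot_iff]
    intro x hx
    apply complete
    intro n
    rw [← inner_ee]
    exact hx _ (Submodule.subset_span ⟨n, rfl⟩))

theorem bas_repr (x : X) (n : ℕ) : bas.repr x n = coef x (n + 1) := by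
  rw [bas.repr_apply_apply, ← inner_ee]
  simp [bas]

noncomputable def rep (u : U) (s : ℝ) : ℝ := if |u s| ≤ ‖u‖ then u s else 0

theorem rep_le (u : U) (s : ℝ) : |rep u s| ≤ ‖u‖ := by
  unfold rep; split_ifs with h
  · exact h
  · simp

theorem rep_good (u : U) : Good (rep u) := by
  have h := (Lp.stronglyMeasurable u).measurable
  exact ⟨Measurable.ite (measurableSet_le h.abs measurable_const) h measurable_const, _, rep_le u⟩

theorem rep_ae (u : U) : ∀ᵐ s, s ∈ Ioi (0 : ℝ) → rep u s = u s := by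
  rw [← ae_restrict_iff' measurableSet_Ioi]
  filter_upwards [ae_le_eLpNormEssSup (f := u) (μ := volume.restrict (Ioi (0 : ℝ)))] with s hs
  apply if_pos
  rw [Lp.norm_def, eLpNorm_exponent_top]
  have h := Lp.eLpNorm_ne_top u
  rw [eLpNorm_exponent_top] at h
  have := ENNReal.toReal_mono h hs
  simpa using this

theorem mild_iff (x : X) (u : U) (y : ℝ → X) :
    IsMild x u y ↔ ∀ t, 0 ≤ t → Sol bas t x (rep u) (y t) := by
  have e : ∀ t, 0 ≤ t → ∀ n : ℕ, conv n t (rep u) =
      ∫ s in (0 : ℝ)..t, exp (-(((n + 1 : ℕ) : ℝ) * π) ^ 2 * (t - s)) * u s := by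
    intro t ht n
    apply intervalIntegral.integral_congr_ae
    filter_upwards [rep_ae u] with s hs hs'
    rw [uIoc_of_le ht] at hs'
    rw [hs hs'.1]; rfl
  constructor
  · intro h t ht n
    rw [bas_repr, bas_repr, e t ht n]
    exact h t ht (n + 1) (by omega)
  · intro h t ht k hk
    obtain ⟨n, rfl⟩ : ∃ n, k = n + 1 := ⟨k - 1, by omega⟩
    have := h t ht n
    rw [bas_repr, bas_repr, e t ht n] at this
    exact this

theorem pow_Kinf {c : ℝ} (hc : 0 < c) : ClassKinf fun s => c * s ^ 8 := by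
  refine ⟨⟨by fun_prop, fun s hs t _ hst => ?_, by simp⟩, ?_⟩
  · have hs' : 0 ≤ s := hs
    have : s ^ 8 < t ^ 8 := by gcongr
    simp only; gcongr
  · exact (tendsto_pow_atTop (by norm_num)).const_mul_atTop hc

end Pool.Agent.H.MP_44d715_an
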